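import Mathlib

/-!
# An approximately contractible Köthe algebra that is not nuclear
-/

namespace Pool.Agent.Results.MP_07c133_an.NotNuclear

open Filter Topology
open scoped NNReal

section Definitions

variable {I : Type}

/-- Köthe sets: the countable set is the range of the sequence `p` of functions `I → [0, ∞)`. -/
structure KoetheSet (p : ℕ → I → ℝ≥0) : Prop where
  pos : ∀ i, ∃ k, 0 < p k i
  dir : ∀ k l, ∃ m, ∀ i, max (p k i) (p l i) ≤ p m i

/-- the Köthe space as a space of functions -/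
def Lam (p : ℕ → I → ℝ≥0) : Submodule ℂ (I → ℂ) where
  carrier := {x | ∀ k, Summable fun i => ‖x i‖ * (p k i : ℝ)}
  zero_mem' := by intro k; simp
  add_mem' := by
    intro x y hx hy k
    refine Summable.of_nonneg_of_le (fun i => by positivity) (fun i => ?_) ((hx k).add (hy k))
    rw [← add_mul]
    exact mul_le_mul_of_nonneg_right (norm_add_le _ _) (p k i).2
  smul_mem' := by
    intro c x hx k
    refine ((hx k).mul_left ‖c‖).congr fun i => ?_
    simp [mul_assoc]

/-- the Köthe space `λ(P)` -/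
def KSpace (p : ℕ → I → ℝ≥0) : Type := ↥(Lam p)

instance (p : ℕ → I → ℝ≥0) : AddCommGroup (KSpace p) := inferInstanceAs (AddCommGroup ↥(Lam p))
instance (p : ℕ → I → ℝ≥0) : Module ℂ (KSpace p) := inferInstanceAs (Module ℂ ↥(Lam p))

/-- the seminorms `‖x‖ₚ = ∑ |xᵢ| pᵢ` -/
noncomputable def sn (p : ℕ → I → ℝ≥0) : SeminormFamily ℂ (KSpace p) ℕ := fun k =>
  Seminorm.of (fun x => ∑' i, ‖x.1 i‖ * (p k i : ℝ))
    (fun x y => by
      rw [← (x.2 k).tsum_add (y.2 k)]
      refine Summable.tsum_le_tsum (fun i => ?_) ((x + y).2 k) ((x.2 k).add (y.2 k))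
      rw [← add_mul]
      exact mul_le_mul_of_nonneg_right (norm_add_le _ _) (p k i).2)
    (fun c x => by
      rw [← tsum_mul_left]
      refine tsum_congr fun i => ?_
      have : (c • x).1 i = c * x.1 i := rfl
      rw [this, norm_mul, mul_assoc])

/-- the topology of `λ(P)` is given by the seminorms `‖·‖ₚ` -/
noncomputable instance (p : ℕ → I → ℝ≥0) : TopologicalSpace (KSpace p) :=
  (sn p).moduleFilterBasis.topology

theorem withS (p : ℕ → I → ℝ≥0) : WithSeminorms (sn p) := ⟨rfl⟩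

/-- `λ(P)` is closed under pointwise multiplication -/
def Closed (p : ℕ → I → ℝ≥0) : Prop :=
  ∀ a b : KSpace p, (fun i => a.1 i * b.1 i) ∈ Lam p

/-- the pointwise product of a Köthe algebra -/
def mul {p : ℕ → I → ℝ≥0} (h : Closed p) (a b : KSpace p) : KSpace p :=
  ⟨fun i => a.1 i * b.1 i, h a b⟩

/-- bimodules over a Köthe algebra: `L a x = a · x`, `R a x = x · a` -/
structure Bimod {p : ℕ → I → ℝ≥0} (h : Closed p) (X : Type*) [AddCommGroup X] [Module ℂ X]
    [TopologicalSpace X] where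
  /-- left action -/
  L : KSpace p →ₗ[ℂ] X →ₗ[ℂ] X
  /-- right action -/
  R : KSpace p →ₗ[ℂ] X →ₗ[ℂ] X
  L_mul : ∀ a b x, L (mul h a b) x = L a (L b x)
  R_mul : ∀ a b x, R (mul h a b) x = R b (R a x)
  L_R : ∀ a b x, L a (R b x) = R b (L a x)
  contL : Continuous fun z : KSpace p × X => L z.1 z.2
  contR : Continuous fun z : KSpace p × X => R z.1 z.2

/-- derivations -/
def IsDerivation {p : ℕ → I → ℝ≥0} {h : Closed p} {X : Type*} [AddCommGroup X] [Module ℂ X]
    [TopologicalSpace X] (B : Bimod h X) (D : KSpace p →L[ℂ] X) : Prop :=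
  ∀ a b, D (mul h a b) = B.L a (D b) + B.R b (D a)

/-- approximate contractibility: for every Fréchet bimodule `X`, every continuous derivation is
the pointwise limit of a net of inner derivations -/
def ApproximatelyContractible.{u} {p : ℕ → I → ℝ≥0} (h : Closed p) : Prop :=
  ∀ (X : Type u) [AddCommGroup X] [Module ℂ X] [UniformSpace X] [IsUniformAddGroup X]
    [T2Space X] [CompleteSpace X] (q : SeminormFamily ℂ X ℕ) (_ : WithSeminorms q)
    (B : Bimod h X) (D : KSpace p →L[ℂ] X), IsDerivation B D →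
    ∃ (J : Type) (_ : Preorder J) (_ : IsDirectedOrder J) (_ : Nonempty J) (y : J → X),
      ∀ a, Tendsto (fun j => B.L a (y j) - B.R a (y j)) atTop (𝓝 (D a))

/-- nuclear maps into a Banach space -/
def NuclearMap {E F : Type*} [AddCommGroup E] [Module ℂ E] [TopologicalSpace E]
    [NormedAddCommGroup F] [NormedSpace ℂ F] (T : E →L[ℂ] F) : Prop :=
  ∃ (l : ℕ → ℂ) (φ : ℕ → E →ₗ[ℂ] ℂ) (y : ℕ → F) (q : Seminorm ℂ E), Continuous q ∧
    (Summable fun n => ‖l n‖) ∧ (∀ n x, ‖φ n x‖ ≤ q x) ∧ (∀ n, ‖y n‖ ≤ 1) ∧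
    ∀ x, HasSum (fun n => (l n * φ n x) • y n) (T x)

/-- nuclear locally convex spaces: every continuous linear map into a Banach space is nuclear -/
def NuclearSpace (E : Type) [AddCommGroup E] [Module ℂ E] [TopologicalSpace E] : Prop :=
  ∀ (F : Type) [NormedAddCommGroup F] [NormedSpace ℂ F] [CompleteSpace F] (T : E →L[ℂ] F),
    NuclearMap T

end Definitions

section Indicators

variable {I : Type} [DecidableEq I] {p : ℕ → I → ℝ≥0}

/-- indicator functions of finite sets -/
def ind (p : ℕ → I → ℝ≥0) (T : Finset I) : KSpace p :=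
  ⟨fun i => if i ∈ T then 1 else 0, fun k => by
    refine summable_of_ne_finset_zero (s := T) fun i hi => ?_
    simp [hi]⟩

omit [DecidableEq I] in
theorem kext {x y : KSpace p} (h : ∀ i, x.1 i = y.1 i) : x = y := Subtype.ext (funext h)

omit [DecidableEq I] in
theorem sum_val (T : Finset I) (f : I → KSpace p) (i : I) :
    (∑ t ∈ T, f t).1 i = ∑ t ∈ T, (f t).1 i := by
  have : (∑ t ∈ T, f t : KSpace p).1 = ∑ t ∈ T, (f t).1 :=
    map_sum (Lam p).subtype f T
  rw [this, Finset.sum_apply]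

theorem ind_eq_sum (T : Finset I) : ind p T = ∑ i ∈ T, ind p {i} := by
  apply kext
  intro i
  rw [sum_val]
  simp [ind, Finset.mem_singleton]

theorem mul_ind_single (h : Closed p) (a : KSpace p) (i : I) :
    mul h a (ind p {i}) = a.1 i • ind p {i} := by
  apply kext
  intro j
  change a.1 j * (if j ∈ ({i} : Finset I) then 1 else 0) =
    a.1 i * (if j ∈ ({i} : Finset I) then 1 else 0)
  by_cases hj : j = i
  · simp [hj]
  · simp [hj]

omit [DecidableEq I] in
theorem mul_comm' (h : Closed p) (a b : KSpace p) : mul h a b = mul h b a :=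
  kext fun _ => mul_comm _ _

theorem ind_single_mul (h : Closed p) (a : KSpace p) (i : I) :
    mul h (ind p {i}) a = a.1 i • ind p {i} := by
  rw [mul_comm', mul_ind_single]

theorem ind_mul_ind (h : Closed p) (T : Finset I) : mul h (ind p T) (ind p T) = ind p T := by
  apply kext
  intro j
  change (if j ∈ T then (1 : ℂ) else 0) * (if j ∈ T then 1 else 0) = if j ∈ T then 1 else 0
  split_ifs <;> simp

/-- the tail of `a` off the set `T` -/
def tail (h : Closed p) (T : Finset I) (a : KSpace p) : KSpace p := a - mul h (ind p T) a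

theorem tail_val (h : Closed p) (T : Finset I) (a : KSpace p) (i : I) :
    (tail h T a).1 i = if i ∈ T then 0 else a.1 i := by
  change a.1 i - (if i ∈ T then 1 else 0) * a.1 i = _
  split_ifs <;> simp

theorem tail_mul (h : Closed p) (T : Finset I) (a : KSpace p) :
    mul h (tail h T a) (ind p T) = 0 := by
  apply kext
  intro i
  change (tail h T a).1 i * (if i ∈ T then 1 else 0) = 0
  rw [tail_val]
  split_ifs <;> simp

/-- the element of the bimodule -/
noncomputable def elt {X : Type*} [AddCommGroup X] [Module ℂ X] [TopologicalSpace X]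
    {h : Closed p} (B : Bimod h X) (D : KSpace p →L[ℂ] X) (T : Finset I) : X :=
  ∑ i ∈ T, B.L (ind p {i}) (D (ind p {i})) - D (ind p T) + B.L (ind p T) (D (ind p T))

theorem inner_eq {X : Type*} [AddCommGroup X] [Module ℂ X] [TopologicalSpace X]
    {h : Closed p} (B : Bimod h X) (D : KSpace p →L[ℂ] X) (hD : IsDerivation B D)
    (T : Finset I) (a : KSpace p) :
    B.L a (elt B D T) - B.R a (elt B D T) =
      D a - D (tail h T a) + B.R (ind p T) (D (tail h T a)) +
        B.L (ind p T) (D (tail h T a)) := by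
  set c := tail h T a with hc
  set E := ind p T with hE
  have ha : mul h E a = a - c := by rw [hc, tail]; abel
  have ha' : mul h a E = a - c := by rw [mul_comm', ha]
  -- the first sum
  have h1 : B.L a (∑ i ∈ T, B.L (ind p {i}) (D (ind p {i}))) -
      B.R a (∑ i ∈ T, B.L (ind p {i}) (D (ind p {i}))) = B.L E (D a) := by
    rw [map_sum, map_sum, ← Finset.sum_sub_distrib, hE, ind_eq_sum T, map_sum,
      LinearMap.sum_apply]
    refine Finset.sum_congr rfl fun i _ => ?_
    have e1 : B.L a (B.L (ind p {i}) (D (ind p {i}))) =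
        a.1 i • B.L (ind p {i}) (D (ind p {i})) := by
      rw [← B.L_mul, mul_ind_single, map_smul, LinearMap.smul_apply]
    have e2 : B.R a (D (ind p {i})) = a.1 i • D (ind p {i}) - B.L (ind p {i}) (D a) := by
      have := hD (ind p {i}) a
      rw [ind_single_mul, map_smul] at this
      rw [this]; abel
    have e3 : B.L (ind p {i}) (B.L (ind p {i}) (D a)) = B.L (ind p {i}) (D a) := by
      rw [← B.L_mul, ind_mul_ind]
    rw [e1, ← B.L_R, e2, map_sub, map_smul, e3]
    abel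
  have h3 : B.R a (D E) = D (a - c) - B.L E (D a) := by
    have := hD E a
    rw [ha] at this
    rw [this]; abel
  have h4 : B.L a (B.L E (D E)) = B.L a (D E) - B.L c (D E) := by
    rw [← B.L_mul, ha', map_sub, LinearMap.sub_apply]
  have h5 : B.R a (B.L E (D E)) = - B.L E (D c) := by
    rw [← B.L_R, h3, map_sub, ← B.L_mul, hE, ind_mul_ind, map_sub, map_sub]
    abel
  have h6 : B.L c (D E) = - B.R E (D c) := by
    have := hD c E
    rw [hc, hE, tail_mul, map_zero] at this
    rw [hc, hE]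
    exact eq_neg_of_add_eq_zero_left this.symm
  have key : B.L a (elt B D T) - B.R a (elt B D T) =
      (B.L a (∑ i ∈ T, B.L (ind p {i}) (D (ind p {i}))) -
        B.R a (∑ i ∈ T, B.L (ind p {i}) (D (ind p {i})))) -
      (B.L a (D E) - B.R a (D E)) + (B.L a (B.L E (D E)) - B.R a (B.L E (D E))) := by
    unfold elt
    rw [← hE]
    simp only [map_add, map_sub]
    abel
  rw [key, h1, h3, h4, h5, h6, map_sub]
  abel

end Indicators

section Example

/-- the exponents -/
def Qe : ℕ → ℕ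
  | 0 => 1
  | j + 1 => (6 * j + 6) * Qe j

theorem Qe_ge (j : ℕ) : j + 1 ≤ Qe j := by
  induction j with
  | zero => simp [Qe]
  | succ j ih => unfold Qe; nlinarith

theorem Qe_mono {i j : ℕ} (h : i ≤ j) : Qe i ≤ Qe j := by
  induction j, h using Nat.le_induction with
  | base => exact le_rfl
  | succ j _ ih =>
    refine ih.trans ?_
    change Qe j ≤ (6 * j + 6) * Qe j
    exact Nat.le_mul_of_pos_left _ (by omega)

/-- the index set: `2 ^ (j * Qe j)` indices in block `j` -/
abbrev Ix : Type := Σ j : ℕ, Fin (2 ^ (j * Qe j))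

/-- the powers of the weight `2 ^ Qe j` on block `j` -/
noncomputable def pw (k : ℕ) (i : Ix) : ℝ≥0 := 2 ^ (Qe i.1 * k)

theorem pw_real (k : ℕ) (i : Ix) : ((pw k i : ℝ≥0) : ℝ) = 2 ^ (Qe i.1 * k) := by
  unfold pw; push_cast; rfl

theorem pw_mono {k l : ℕ} (h : k ≤ l) (i : Ix) : pw k i ≤ pw l i :=
  pow_le_pow_right₀ (by norm_num) (Nat.mul_le_mul_left _ h)

theorem koetheSet_pw : KoetheSet pw where
  pos i := ⟨0, by simp [pw]⟩
  dir k l := ⟨max k l, fun i => max_le (pw_mono (le_max_left _ _) i) (pw_mono (le_max_right _ _) i)⟩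

theorem closed_pw : Closed pw := by
  intro a b k
  have hb : Summable fun i => ‖b.1 i‖ := by
    have := b.2 0
    simpa [pw] using this
  refine Summable.of_nonneg_of_le (fun i => by positivity) (fun i => ?_)
    ((a.2 k).mul_left (∑' i, ‖b.1 i‖))
  rw [norm_mul]
  have h1 : ‖b.1 i‖ ≤ ∑' i, ‖b.1 i‖ := hb.le_tsum i fun j _ => norm_nonneg _
  have h2 : 0 ≤ ‖a.1 i‖ * (pw k i : ℝ) := by positivity
  nlinarith

/-- the first blocks -/
def T (j : ℕ) : Finset Ix := (Finset.range (j + 1)).sigma fun _ => Finset.univ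

theorem mem_T (j : ℕ) (i : Ix) : i ∈ T j ↔ i.1 ≤ j := by
  simp [T]

theorem sum_block (l k : ℕ) :
    ∑ x : Fin (2 ^ (l * Qe l)), ((pw k ⟨l, x⟩ : ℝ≥0) : ℝ) = 2 ^ ((l + k) * Qe l) := by
  simp only [pw_real, Finset.sum_const, Finset.card_univ, Fintype.card_fin, nsmul_eq_mul]
  push_cast
  rw [← pow_add]
  congr 1
  ring

theorem sum_T (j k : ℕ) :
    ∑ i ∈ T j, ((pw k i : ℝ≥0) : ℝ) ≤ (j + 1) * 2 ^ ((j + k) * Qe j) := by
  unfold T
  rw [Finset.sum_sigma]
  simp only [sum_block]
  have : ∀ l ∈ Finset.range (j + 1), (2 : ℝ) ^ ((l + k) * Qe l) ≤ 2 ^ ((j + k) * Qe j) := by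
    intro l hl
    have hl' : l ≤ j := Nat.lt_succ_iff.1 (Finset.mem_range.1 hl)
    exact pow_le_pow_right₀ (by norm_num)
      (Nat.mul_le_mul (Nat.add_le_add_right hl' k) (Qe_mono hl'))
  refine (Finset.sum_le_sum this).trans ?_
  rw [Finset.sum_const, Finset.card_range, nsmul_eq_mul]
  push_cast
  exact le_rfl

theorem sn_ind (j k : ℕ) :
    sn pw k (ind pw (T j)) ≤ (j + 1) * 2 ^ ((j + k) * Qe j) := by
  refine le_trans (le_of_eq ?_) (sum_T j k)
  change ∑' i, ‖(ind pw (T j)).1 i‖ * (pw k i : ℝ) = _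
  rw [tsum_eq_sum (s := T j)]
  · refine Finset.sum_congr rfl fun i hi => ?_
    simp [ind, hi]
  · intro i hi
    simp [ind, hi]

theorem sn_tail (j k : ℕ) (a : KSpace pw) :
    2 ^ Qe (j + 1) * sn pw k (tail closed_pw (T j) a) ≤ sn pw (k + 1) a := by
  change 2 ^ Qe (j + 1) * (∑' i, ‖(tail closed_pw (T j) a).1 i‖ * (pw k i : ℝ)) ≤
    ∑' i, ‖a.1 i‖ * (pw (k + 1) i : ℝ)
  rw [← tsum_mul_left]
  refine Summable.tsum_le_tsum (fun i => ?_) (((tail closed_pw (T j) a).2 k).mul_left _)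
    (a.2 (k + 1))
  rw [tail_val]
  split_ifs with h
  · simp only [norm_zero, zero_mul, mul_zero]; positivity
  · rw [mem_T, not_le] at h
    have e : ((pw (k + 1) i : ℝ≥0) : ℝ) = pw k i * 2 ^ Qe i.1 := by
      rw [pw_real, pw_real, mul_add, mul_one, pow_add]
    have e2 : (2 : ℝ) ^ Qe (j + 1) ≤ 2 ^ Qe i.1 :=
      pow_le_pow_right₀ (by norm_num) (Qe_mono h)
    rw [e]
    have : 0 ≤ ‖a.1 i‖ * (pw k i : ℝ) := by positivity
    nlinarith

/-- the scaling factors -/
noncomputable def sc (j : ℕ) : ℂ := 2 ^ ((3 * j + 3) * Qe j)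

theorem sc_ne (j : ℕ) : sc j ≠ 0 := pow_ne_zero _ two_ne_zero

theorem norm_sc (j : ℕ) : ‖sc j‖ = 2 ^ ((3 * j + 3) * Qe j) := by
  unfold sc; rw [norm_pow]; norm_num

theorem half_tendsto : Tendsto (fun j : ℕ => (1 / 2 : ℝ) ^ j) atTop (𝓝 0) :=
  tendsto_pow_atTop_nhds_zero_of_lt_one (by norm_num) (by norm_num)

theorem norm_sc_inv (j : ℕ) : ‖(sc j)⁻¹‖ ≤ (1 / 2) ^ j := by
  rw [norm_inv, norm_sc, one_div, inv_pow]
  apply inv_anti₀ (by positivity)
  exact pow_le_pow_right₀ (by norm_num) (by nlinarith [Qe_ge j])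

theorem sc_inv_tendsto : Tendsto (fun j => (sc j)⁻¹) atTop (𝓝 0) :=
  squeeze_zero_norm norm_sc_inv half_tendsto

theorem ind_tendsto : Tendsto (fun j => (sc j)⁻¹ • ind pw (T j)) atTop (𝓝 0) := by
  rw [(withS pw).tendsto_nhds]
  intro k ε hε
  filter_upwards [eventually_ge_atTop (max k 1), half_tendsto.eventually_lt_const hε]
    with j hj hε'
  have hjk : k ≤ j := (le_max_left _ _).trans hj
  have hj1 : 1 ≤ j := (le_max_right _ _).trans hj
  rw [sub_zero, map_smul_eq_mul, norm_inv, norm_sc]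
  have h1 := sn_ind j k
  have h2 : ((j : ℝ) + 1) ≤ 2 ^ j := by
    have : j + 1 ≤ 2 ^ j := Nat.lt_two_pow_self
    exact_mod_cast this
  have h3 : (j : ℕ) + j + (j + k) * Qe j ≤ (3 * j + 3) * Qe j := by
    have := Qe_ge j
    nlinarith
  have h4 : ((j : ℝ) + 1) * 2 ^ ((j + k) * Qe j) ≤
      (1 / 2) ^ j * 2 ^ ((3 * j + 3) * Qe j) := by
    calc ((j : ℝ) + 1) * 2 ^ ((j + k) * Qe j) ≤ 2 ^ j * 2 ^ ((j + k) * Qe j) :=
          mul_le_mul_of_nonneg_right h2 (by positivity)
      _ = (1 / 2) ^ j * 2 ^ (j + j + (j + k) * Qe j) := by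
          rw [pow_add, pow_add, ← mul_assoc, ← mul_assoc, ← mul_pow]; norm_num
      _ ≤ _ := mul_le_mul_of_nonneg_left (pow_le_pow_right₀ (by norm_num) h3) (by positivity)
  have h5 : (0 : ℝ) < 2 ^ ((3 * j + 3) * Qe j) := by positivity
  refine lt_of_le_of_lt ?_ hε'
  rw [inv_mul_le_iff₀ h5]
  linarith

theorem tail_tendsto (a : KSpace pw) :
    Tendsto (fun j => sc j • tail closed_pw (T j) a) atTop (𝓝 0) := by
  rw [(withS pw).tendsto_nhds]
  intro k ε hε
  have hlim : Tendsto (fun j : ℕ => (1 / 2 : ℝ) ^ j * sn pw (k + 1) a) atTop (𝓝 0) := by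
    simpa using half_tendsto.mul_const (sn pw (k + 1) a)
  filter_upwards [hlim.eventually_lt_const hε] with j hε'
  rw [sub_zero, map_smul_eq_mul, norm_sc]
  have h1 := sn_tail j k a
  have h2 : Qe (j + 1) = (3 * j + 3) * Qe j + (3 * j + 3) * Qe j := by
    rw [Qe]; ring
  rw [h2, pow_add] at h1
  have h3 : (1 : ℝ) ≤ (1 / 2) ^ j * 2 ^ ((3 * j + 3) * Qe j) := by
    have : (2 : ℝ) ^ j ≤ 2 ^ ((3 * j + 3) * Qe j) :=
      pow_le_pow_right₀ (by norm_num) (by nlinarith [Qe_ge j])
    calc (1 : ℝ) = (1 / 2) ^ j * 2 ^ j := by rw [← mul_pow]; norm_num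
      _ ≤ _ := mul_le_mul_of_nonneg_left this (by positivity)
  set s : ℝ := 2 ^ ((3 * j + 3) * Qe j) with hs
  have hs0 : 0 < s := by positivity
  set A := sn pw (k + 1) a
  set Bt := sn pw k (tail closed_pw (T j) a)
  have hB : 0 ≤ s * Bt := mul_nonneg hs0.le (apply_nonneg _ _)
  refine lt_of_le_of_lt ?_ hε'
  have h6 : s * (s * Bt) ≤ A := by rw [← mul_assoc]; exact h1
  have h7 : (0 : ℝ) < (1 / 2) ^ j := by positivity
  calc s * Bt = 1 * (s * Bt) := (one_mul _).symm
    _ ≤ ((1 / 2) ^ j * s) * (s * Bt) := mul_le_mul_of_nonneg_right h3 hB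
    _ = (1 / 2) ^ j * (s * (s * Bt)) := by ring
    _ ≤ (1 / 2) ^ j * A := mul_le_mul_of_nonneg_left h6 h7.le

theorem approx.{u} : ApproximatelyContractible.{u} closed_pw := by
  intro X _ _ _ _ _ _ q hq B D hD
  have : ContinuousSMul ℂ X := hq.continuousSMul
  refine ⟨ℕ, inferInstance, inferInstance, inferInstance, fun j => elt B D (T j), fun a => ?_⟩
  have hDc : Tendsto (fun j => D (sc j • tail closed_pw (T j) a)) atTop (𝓝 0) := by
    have := (D.continuous.tendsto 0).comp (tail_tendsto a)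
    rwa [map_zero] at this
  have h1 : Tendsto (fun j => D (tail closed_pw (T j) a)) atTop (𝓝 0) := by
    have := sc_inv_tendsto.smul hDc
    rw [zero_smul] at this
    refine this.congr fun j => ?_
    rw [map_smul, smul_smul, inv_mul_cancel₀ (sc_ne j), one_smul]
  have hpair : Tendsto (fun j => (((sc j)⁻¹ • ind pw (T j), D (sc j • tail closed_pw (T j) a)) :
      KSpace pw × X)) atTop (𝓝 (0, 0)) := by
    rw [nhds_prod_eq]
    exact ind_tendsto.prodMk hDc
  have h2 : Tendsto (fun j => B.R (ind pw (T j)) (D (tail closed_pw (T j) a))) atTop (𝓝 0) := by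
    have := (B.contR.tendsto (0, 0)).comp hpair
    simp only [map_zero] at this
    refine this.congr fun j => ?_
    simp only [Function.comp, map_smul, LinearMap.smul_apply]
    rw [smul_smul, mul_inv_cancel₀ (sc_ne j), one_smul]
  have h3 : Tendsto (fun j => B.L (ind pw (T j)) (D (tail closed_pw (T j) a))) atTop (𝓝 0) := by
    have := (B.contL.tendsto (0, 0)).comp hpair
    simp only [map_zero] at this
    refine this.congr fun j => ?_
    simp only [Function.comp, map_smul, LinearMap.smul_apply]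
    rw [smul_smul, mul_inv_cancel₀ (sc_ne j), one_smul]
  have h4 := ((tendsto_const_nhds (x := D a)).sub h1).add h2 |>.add h3
  rw [sub_zero, add_zero, add_zero] at h4
  refine h4.congr fun j => ?_
  rw [inner_eq B D hD]

theorem summ (x : KSpace pw) : Summable fun i => ‖x.1 i‖ := by
  have := x.2 0
  simpa [pw] using this

/-- the inclusion of the Köthe space into `ℓ¹`, as a linear map -/
noncomputable def inclL : KSpace pw →ₗ[ℂ] lp (fun _ : Ix => ℂ) 1 where
  toFun x := ⟨x.1, by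
    change Memℓp x.1 1
    rw [memℓp_gen_iff (by simp)]
    simpa using summ x⟩
  map_add' _ _ := rfl
  map_smul' _ _ := rfl

theorem incl_norm (x : KSpace pw) : ‖inclL x‖ = sn pw 0 x := by
  rw [lp.norm_eq_tsum_rpow (by simp)]
  change _ = ∑' i, ‖x.1 i‖ * (pw 0 i : ℝ)
  simp only [ENNReal.toReal_one, Real.rpow_one, one_div, inv_one]
  refine tsum_congr fun i => ?_
  simp [pw]
  rfl

/-- the inclusion of the Köthe space into `ℓ¹` -/
noncomputable def incl : KSpace pw →L[ℂ] lp (fun _ : Ix => ℂ) 1 :=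
  ⟨inclL, WithSeminorms.continuous_normedSpace_rng _ (withS pw) inclL ⟨{0}, 1, fun x => by
    rw [Finset.sup_singleton, one_smul]
    exact (incl_norm x).le⟩⟩

theorem sn_mono {k l : ℕ} (h : k ≤ l) : sn pw k ≤ sn pw l := fun x =>
  Summable.tsum_le_tsum (fun i => mul_le_mul_of_nonneg_left (by exact_mod_cast pw_mono h i)
    (norm_nonneg _)) (x.2 k) (x.2 l)

theorem sn_single (k : ℕ) (i : Ix) : sn pw k (ind pw {i}) = pw k i := by
  change ∑' j, ‖(ind pw {i}).1 j‖ * (pw k j : ℝ) = _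
  rw [tsum_eq_single i]
  · simp [ind]
  · intro j hj
    simp [ind, hj]

theorem large_sums (m : ℕ) (C : ℝ) : ∃ S : Finset Ix, C < ∑ i ∈ S, ((pw m i : ℝ))⁻¹ := by
  obtain ⟨N, hN⟩ := exists_nat_gt C
  refine ⟨({m + N} : Finset ℕ).sigma fun _ => Finset.univ, ?_⟩
  rw [Finset.sum_sigma, Finset.sum_singleton]
  simp only [pw_real, Finset.sum_const, Finset.card_univ, Fintype.card_fin, nsmul_eq_mul]
  push_cast
  have h7 : (2 : ℝ) ^ ((m + N) * Qe (m + N)) * (2 ^ (Qe (m + N) * m))⁻¹ =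
      2 ^ (N * Qe (m + N)) := by
    rw [show (m + N) * Qe (m + N) = N * Qe (m + N) + Qe (m + N) * m by ring, pow_add]
    rw [mul_assoc, mul_inv_cancel₀ (by positivity), mul_one]
  rw [h7]
  have h8 : (N : ℝ) ≤ 2 ^ (N * Qe (m + N)) := by
    have : N ≤ 2 ^ (N * Qe (m + N)) :=
      (Nat.lt_two_pow_self (n := N)).le.trans
        (Nat.pow_le_pow_right (by norm_num) (by nlinarith [Qe_ge (m + N)]))
    exact_mod_cast this
  linarith

theorem criterion_fails (m : ℕ) : ¬ Summable fun i : Ix => (pw 0 i : ℝ) / (pw m i : ℝ) := by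
  intro h
  have h' : Summable fun i : Ix => ((pw m i : ℝ))⁻¹ := by
    refine h.congr fun i => ?_
    simp [pw]
  obtain ⟨S, hS⟩ := large_sums m (∑' i : Ix, ((pw m i : ℝ))⁻¹)
  have := h'.sum_le_tsum S fun i _ => inv_nonneg.2 (pw m i).2
  exact absurd this (not_le.2 hS)

theorem not_nuclear : ¬ NuclearSpace (KSpace pw) := by
  intro h
  obtain ⟨l, φ, y, q, hq, hl, hφ, hy, hT⟩ := h (lp (fun _ : Ix => ℂ) 1) incl
  obtain ⟨s, C, hC, hqC⟩ := Seminorm.bound_of_continuous (withS pw) q hq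
  obtain ⟨m, hm⟩ : ∃ m, ∀ k ∈ s, k ≤ m := ⟨s.sup id, fun k hk => Finset.le_sup (f := id) hk⟩
  have hqm : ∀ i : Ix, q (ind pw {i}) ≤ C * pw m i := by
    intro i
    refine (hqC _).trans ?_
    have h1 : s.sup (sn pw) ≤ sn pw m := Finset.sup_le fun k hk => sn_mono (hm k hk)
    have h2 := h1 (ind pw {i})
    rw [sn_single] at h2
    change (C : ℝ) * (s.sup (sn pw)) (ind pw {i}) ≤ _
    exact mul_le_mul_of_nonneg_left h2 C.2
  -- the coordinates
  have hcoord : ∀ i : Ix, (1 : ℝ) ≤ ∑' n, ‖l n‖ * (C * pw m i) * ‖y n i‖ := by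
    intro i
    have h1 := (hT (ind pw {i})).mapL (lp.evalCLM ℂ (fun _ : Ix => ℂ) (p := 1) i)
    have h2 : lp.evalCLM ℂ (fun _ : Ix => ℂ) (p := 1) i (incl (ind pw {i})) = 1 := by
      change (ind pw {i}).1 i = 1
      simp [ind]
    rw [h2] at h1
    have hb : ∀ n, ‖lp.evalCLM ℂ (fun _ : Ix => ℂ) (p := 1) i
        ((l n * φ n (ind pw {i})) • y n)‖ ≤ ‖l n‖ * (C * pw m i) * ‖y n i‖ := by
      intro n
      rw [map_smul, norm_smul, norm_mul]
      have : ‖φ n (ind pw {i})‖ ≤ C * pw m i := (hφ n _).trans (hqm i)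
      have h3 : ‖lp.evalCLM ℂ (fun _ : Ix => ℂ) (p := 1) i (y n)‖ = ‖y n i‖ := rfl
      rw [h3]
      gcongr
    have hs : Summable fun n => ‖l n‖ * (C * pw m i) * ‖y n i‖ := by
      refine Summable.of_nonneg_of_le (fun n => by positivity) (fun n => ?_)
        (hl.mul_right ((C : ℝ) * pw m i))
      have : ‖y n i‖ ≤ 1 := (lp.norm_apply_le_norm one_ne_zero (y n) i).trans (hy n)
      have h0 : 0 ≤ ‖l n‖ * ((C : ℝ) * pw m i) := by positivity
      nlinarith
    have h4 := tsum_of_norm_bounded hs.hasSum hb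
    rw [h1.tsum_eq] at h4
    simpa using h4
  -- sums over finite sets of indices
  have hfin : ∀ S : Finset Ix, ∑ i ∈ S, ((pw m i : ℝ))⁻¹ ≤ C * ∑' n, ‖l n‖ := by
    intro S
    have h1 : ∀ i ∈ S, ((pw m i : ℝ))⁻¹ ≤ ∑' n, C * ‖l n‖ * ‖y n i‖ := by
      intro i _
      have h2 := hcoord i
      have hp : (0 : ℝ) < pw m i := by rw [pw_real]; positivity
      have h3 : ∑' n, ‖l n‖ * (C * pw m i) * ‖y n i‖ =
          (pw m i : ℝ) * ∑' n, C * ‖l n‖ * ‖y n i‖ := by
        rw [← tsum_mul_left]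
        exact tsum_congr fun n => by ring
      rw [h3] at h2
      rw [inv_le_iff_one_le_mul₀ hp, mul_comm]
      exact h2
    refine (Finset.sum_le_sum h1).trans ?_
    have hs : ∀ i ∈ S, Summable fun n => C * ‖l n‖ * ‖y n i‖ := by
      intro i _
      refine Summable.of_nonneg_of_le (fun n => by positivity) (fun n => ?_)
        (hl.mul_left (C : ℝ))
      have : ‖y n i‖ ≤ 1 := (lp.norm_apply_le_norm one_ne_zero (y n) i).trans (hy n)
      have h0 : 0 ≤ (C : ℝ) * ‖l n‖ := by positivity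
      nlinarith
    rw [← Summable.tsum_finsetSum hs, ← tsum_mul_left]
    refine Summable.tsum_le_tsum (fun n => ?_) (summable_sum hs) (hl.mul_left _)
    rw [← Finset.mul_sum]
    have h5 : ∑ i ∈ S, ‖y n i‖ ≤ 1 := by
      have := lp.sum_rpow_le_norm_rpow (p := 1) (by simp) (y n) S
      simp only [ENNReal.toReal_one, Real.rpow_one] at this
      exact this.trans (hy n)
    have h0 : 0 ≤ (C : ℝ) * ‖l n‖ := by positivity
    nlinarith
  obtain ⟨S, hS⟩ := large_sums m ((C : ℝ) * ∑' n, ‖l n‖)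
  have := hfin S
  linarith

/-- There is a countable Köthe set whose Köthe space is an algebra that is approximately
contractible and not nuclear; also the Grothendieck-Pietsch criterion fails. -/
theorem result.{u} : ∃ (I : Type) (p : ℕ → I → ℝ≥0) (h : Closed p), KoetheSet p ∧
    ApproximatelyContractible.{u} h ∧ ¬ NuclearSpace (KSpace p) ∧
    ∃ k₀, ∀ k, ¬ Summable fun i : I => (p k₀ i : ℝ) / (p k i : ℝ) :=
  ⟨Ix, pw, closed_pw, koetheSet_pw, approx, not_nuclear, 0, criterion_fails⟩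

end Example

end Pool.Agent.Results.MP_07c133_an.NotNuclear
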